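import Pool.Agent.W784.HP.Asym
import Pool.Agent.W335.HP_Ind
import Pool.Agent.W639.HP_One
import Pool.Agent.W639.HP_Ex
import Pool.Agent.W32.HP_Cap

set_option autoImplicit false

open MeasureTheory ProbabilityTheory Filter Topology

namespace Pool.Agent.Results.MP_629fb1_pr.CapacityFormulaFails

open Pool.Agent.W784.HP

lemma thin_eq (R : ℝ) : thin R = Complex.re ⁻¹' (Set.Icc R (R + 1 / R)) ∩
    Complex.im ⁻¹' (Set.Icc (-1) 1) := by
  ext z
  simp only [thin, Set.mem_setOf_eq, Set.mem_inter_iff, Set.mem_preimage, Set.mem_Icc, abs_le]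
  tauto

lemma thin_convex (R : ℝ) : Convex ℝ (thin R) := by
  rw [thin_eq]
  exact ((convex_Icc _ _).linear_preimage Complex.reLm).inter
    ((convex_Icc _ _).linear_preimage Complex.imLm)

lemma thin_compact (R : ℝ) : IsCompact (thin R) := by
  rw [thin_eq]
  refine Metric.isCompact_of_isClosed_isBounded
    ((isClosed_Icc.preimage Complex.continuous_re).inter
      (isClosed_Icc.preimage Complex.continuous_im)) ?_
  rw [isBounded_iff_forall_norm_le]
  refine ⟨(|R| + |R + 1 / R|) + 1, ?_⟩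
  rintro z ⟨h1, h2⟩
  have h3 := Complex.norm_le_abs_re_add_abs_im z
  have h4 : |z.re| ≤ |R| + |R + 1 / R| := by
    have h5 := h1.1
    have h6 := h1.2
    rw [abs_le]
    constructor
    · linarith [neg_abs_le R, abs_nonneg (R + 1 / R)]
    · linarith [le_abs_self (R + 1 / R), abs_nonneg R]
  have h5 : |z.im| ≤ 1 := abs_le.2 h2
  linarith

lemma thin_interior {R : ℝ} (hR : 0 < R) : (interior (thin R)).Nonempty := by
  refine ⟨⟨R + 1 / R / 2, 0⟩, ?_⟩
  rw [mem_interior]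
  refine ⟨Complex.re ⁻¹' (Set.Ioo R (R + 1 / R)) ∩ Complex.im ⁻¹' (Set.Ioo (-1) 1), ?_, ?_, ?_⟩
  · rw [thin_eq]
    exact Set.inter_subset_inter (Set.preimage_mono Set.Ioo_subset_Icc_self)
      (Set.preimage_mono Set.Ioo_subset_Icc_self)
  · exact (isOpen_Ioo.preimage Complex.continuous_re).inter
      (isOpen_Ioo.preimage Complex.continuous_im)
  · have : 0 < 1 / R := by positivity
    refine ⟨⟨?_, ?_⟩, ⟨?_, ?_⟩⟩
    · simp only; linarith
    · simp only; linarith
    · simp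
    · simp

/-- The capacity formula for the hole probability of the Gaussian entire function fails for all
thin rectangles `[R, R + 1/R] × [-1, 1]`, `R ≥ 300`. -/
theorem result :
    (∃ (Ω : Type) (_ : MeasurableSpace Ω) (P : Measure Ω) (_ : IsProbabilityMeasure P)
      (ξ : ℕ → Ω → ℂ), IsGaussianSeq P ξ) ∧
    ∀ (Ω : Type) [MeasurableSpace Ω] (P : Measure Ω) [IsProbabilityMeasure P] (ξ : ℕ → Ω → ℂ),
      IsGaussianSeq P ξ → ∀ R : ℝ, 300 ≤ R →
        IsCompact (thin R) ∧ Convex ℝ (thin R) ∧ IsConnected (thin R) ∧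
        (interior (thin R)).Nonempty ∧ 1 / 4 ≤ capacity (thin R) ∧
        (∀ᶠ r : ℝ in atTop, holeExponent P ξ (thin R) r ≤ 300 / R ^ 2 * r ^ 4) ∧
        ¬ Tendsto (fun r : ℝ => holeExponent P ξ (thin R) r / r ^ 4) atTop
            (𝓝 (Real.exp 2 / 4 * capacity (thin R) ^ 4)) := by
  refine ⟨Pool.Agent.W639.HP.exists_seq, ?_⟩
  intro Ω _ P _ ξ hξ R hR
  have hR0 : 0 < R := by linarith
  have hone := fun n => Pool.Agent.W639.HP.one_var P ξ hξ n
  have hev : ∀ (M N : ℕ), 10 ≤ M → N < M → ∀ δ : ℕ → ℝ, (∀ n, 0 < δ n) → (∀ n, δ n ≤ 1) →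
      Real.exp (-5) * ∏ n ∈ Finset.range M, (Real.exp (-1) * δ n ^ 2) ≤
      (P {ω | 1 ≤ ‖ξ N ω‖ ∧ (∀ n, n < M → n ≠ N → ‖ξ n ω‖ ≤ δ n) ∧
        ∀ n, M ≤ n → ‖ξ n ω‖ ≤ n}).toReal :=
    fun M N hM hN δ h0 h1 => Pool.Agent.W335.HP.prob_event P ξ hξ hone M N hM hN δ h0 h1
  have hexp := exponent_le P ξ hev hR
  have hcap := (Pool.Agent.W32.HP.cap_bounds R (by linarith)).2.2
  refine ⟨thin_compact R, thin_convex R, ?_, thin_interior hR0, hcap, hexp, ?_⟩
  · exact ⟨(thin_interior hR0).mono interior_subset, (thin_convex R).isPreconnected⟩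
  · intro hT
    have h1 : Real.exp 2 / 4 * capacity (thin R) ^ 4 ≤ 300 / R ^ 2 := by
      refine le_of_tendsto hT ?_
      filter_upwards [hexp, eventually_gt_atTop (0:ℝ)] with r hr hr0
      rw [div_le_iff₀ (by positivity)]
      exact hr
    have h2 : 300 / R ^ 2 ≤ 1 / 300 := by
      rw [div_le_div_iff₀ (by positivity) (by norm_num)]
      nlinarith
    have h3 : (7:ℝ) ≤ Real.exp 2 := by
      have h4 : Real.exp 2 = Real.exp 1 * Real.exp 1 := by rw [← Real.exp_add]; norm_num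
      rw [h4]
      have := Real.exp_one_gt_d9
      nlinarith
    have h4 : (1 / 4 : ℝ) ^ 4 ≤ capacity (thin R) ^ 4 := pow_le_pow_left₀ (by norm_num) hcap 4
    have h5 : (7 : ℝ) / 4 * (1 / 4) ^ 4 ≤ Real.exp 2 / 4 * capacity (thin R) ^ 4 :=
      mul_le_mul (by linarith) h4 (by positivity) (by positivity)
    norm_num at h5
    linarith

end Pool.Agent.Results.MP_629fb1_pr.CapacityFormulaFails
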